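import Mathlib

namespace Pool.Agent.Results.MP_be9f3f_co.Swap

open Set Equiv

/-- `S` cannot be split into two nonempty parts with no edge between them -/
def Conn {V : Type} (E : V → V → Prop) (S : Set V) : Prop :=
  ∀ P Q : Set V, P ∪ Q = S → Disjoint P Q → P.Nonempty → Q.Nonempty → ∃ a ∈ P, ∃ b ∈ Q, E a b

theorem result (V : Type) [Finite V] [Nonempty V] (E : V → V → Prop) (hr : ∀ a, E a a)
    (hs : ∀ a b, E a b → E b a) (hc : Conn E univ) :
    ∃ (W : Type) (_ : Finite W) (F : W → W → Prop) (f : W → V), (∀ x, F x x) ∧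
      (∀ x y, F x y → F y x) ∧ Conn F univ ∧
      (∀ x y, ∃ g : W ≃ W, (∀ u v, F (g u) (g v) ↔ F u v) ∧ g x = y) ∧
      (∀ x y, F x y → E (f x) (f y)) ∧ Function.Surjective f ∧
      (∀ a b, E a b → ∃ x y, F x y ∧ f x = a ∧ f y = b) ∧
      ∀ Q, Conn E Q → ∀ C, Maximal (fun C => C ⊆ f ⁻¹' Q ∧ Conn F C) C → f '' C = Q := by
  classical
  obtain ⟨t⟩ := ‹Nonempty V›
  let F : Perm V → Perm V → Prop := fun x y => ∃ a b, E a b ∧ y = swap a b * x
  have sy : ∀ x y, F x y → F y x := by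
    rintro x _ ⟨a, b, h, rfl⟩
    exact ⟨a, b, h, by simp [← mul_assoc]⟩
  refine ⟨Perm V, inferInstance, F, fun x => x t, fun x => ⟨t, t, hr t, by rw [swap_self]; rfl⟩, sy, ?_,
    fun x y => ⟨Equiv.mulRight (x⁻¹ * y), fun u v => ?_, by simp⟩, ?_, fun a => ⟨swap t a, by simp⟩,
    fun a b h => ⟨swap t a, _, ⟨a, b, h, rfl⟩, by simp, by simp⟩, fun Q hQ C hC => ?_⟩
  · intro P Q hu hd ⟨x, hx⟩ ⟨y, hy⟩
    by_contra k
    push Not at k
    let K : Submonoid (Perm V) :=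
      { carrier := {g | ∀ x ∈ P, g * x ∈ P}
        mul_mem' := fun ha hb x hx => by rw [mul_assoc]; exact ha _ (hb x hx)
        one_mem' := fun x hx => by simpa }
    have e : ∀ a b, E a b → swap a b ∈ K := fun a b h x hx =>
      (hu.ge (mem_univ _)).resolve_right fun h' => k x hx _ h' ⟨a, b, h, rfl⟩
    have s : ∀ a b, swap a b ∈ K := fun a => by
      by_contra h
      push Not at h
      obtain ⟨b, hb, c, hc, h⟩ := hc {b | swap a b ∈ K} _ (union_compl_self _) disjoint_compl_right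
        ⟨a, e a a (hr a)⟩ h
      refine hc ?_
      by_cases h1 : a = b
      · exact e a c (h1 ▸ h)
      by_cases h2 : a = c
      · exact e a c (h2 ▸ hr a)
      have := K.mul_mem (K.mul_mem (e b c h) hb) (e b c h)
      rwa [swap_mul_swap_mul_swap h1 h2, swap_comm] at this
    have : ∀ g : Perm V, g ∈ K := fun g =>
      Perm.swap_induction_on g K.one_mem fun f a b _ h => K.mul_mem (s a b) h
    exact disjoint_left.1 hd (by simpa using this (y * x⁻¹) x hx) hy
  · simp only [F, coe_mulRight, ← mul_assoc, mul_left_inj]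
  · rintro x _ ⟨a, b, h, rfl⟩
    simp only [Perm.mul_apply, swap_apply_def]
    split_ifs with h1 h2
    exacts [h1 ▸ h, h2 ▸ hs _ _ h, hr _]
  refine (image_subset_iff.2 hC.1.1).antisymm fun q hq => by_contra fun k => ?_
  have ad : ∀ y, y t ∈ Q → (C.Nonempty → ∃ x ∈ C, F x y) → y ∈ C := fun y h1 h2 => by
    refine hC.2 (y := insert y C) ⟨insert_subset h1 hC.1.1, ?_⟩ (subset_insert _ _) (mem_insert _ _)
    have w : ∀ P Q : Set (Perm V), P ∪ Q = insert y C → Disjoint P Q → Q.Nonempty → y ∈ P →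
        ∃ a ∈ P, ∃ b ∈ Q, F a b := fun P Q hu hd ⟨z, hz⟩ hy => by
      have zc : z ∈ C := (hu.le (.inr hz)).resolve_left fun e => disjoint_left.1 hd hy (e ▸ hz)
      obtain ⟨x, hx, h⟩ := h2 ⟨z, zc⟩
      rcases hu.ge (.inr hx) with l | l
      · obtain ⟨a, ha, b, hb, h⟩ := hC.1.2 (P ∩ C) (Q ∩ C) (by
          rw [← union_inter_distrib_right, hu, inter_eq_right.2 (subset_insert _ _)])
          (hd.mono inter_subset_left inter_subset_left) ⟨x, l, hx⟩ ⟨z, hz, zc⟩
        exact ⟨a, ha.1, b, hb.1, h⟩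
      · exact ⟨y, hy, x, l, sy _ _ h⟩
    intro P Q hu hd hP hQ
    rcases hu.ge (mem_insert _ _) with l | l
    · exact w P Q hu hd hQ l
    · obtain ⟨a, ha, b, hb, h⟩ := w Q P (union_comm P Q ▸ hu) hd.symm hP l
      exact ⟨b, hb, a, ha, sy _ _ h⟩
  have ne : C.Nonempty := by_contra fun h =>
    h ⟨swap t q, ad _ (by simpa) fun h' => (h h').elim⟩
  obtain ⟨_, ⟨x, hx, rfl⟩, b, hb, h⟩ := hQ _ _ (union_sdiff_cancel (image_subset_iff.2 hC.1.1))
    disjoint_sdiff_right (ne.image _) ⟨q, hq, k⟩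
  exact hb.2 ⟨swap (x t) b * x, ad _ (by simpa using hb.1) fun _ => ⟨x, hx, _, _, h, rfl⟩, by simp⟩

end Pool.Agent.Results.MP_be9f3f_co.Swap
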